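import Mathlib

open Complex Filter Topology Set MeasureTheory intervalIntegral
open scoped NNReal

namespace Pool.Agent.HypSemi

/-- `Wk v k u l = ∫_0^u (u-r)^k e^{l (u-r)} v(r) dr`. -/
noncomputable def Wk (v : ℝ → ℂ) (k : ℕ) (u : ℝ) (l : ℂ) : ℂ :=
  ∫ r in (0:ℝ)..u, ((u - r : ℝ) : ℂ) ^ k * exp (l * ((u - r : ℝ) : ℂ)) * v r

lemma hasDerivAt_Wk {v : ℝ → ℂ} (hv : Continuous v) (k : ℕ) (u : ℝ) (l : ℂ) :
    HasDerivAt (Wk v k u) (Wk v (k + 1) u l) l := by
  unfold Wk
  have hcont : ∀ (k : ℕ) (l : ℂ), Continuous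
      (fun r : ℝ => ((u - r : ℝ) : ℂ) ^ k * exp (l * ((u - r : ℝ) : ℂ)) * v r) := by
    intro k l; fun_prop
  have hcont2 : Continuous (fun p : ℂ × ℝ =>
      ‖((u - p.2 : ℝ) : ℂ) ^ (k+1) * exp (p.1 * ((u - p.2 : ℝ) : ℂ)) * v p.2‖) := by fun_prop
  -- bound on the compact set
  obtain ⟨B, hB⟩ := ((isCompact_closedBall l 1).prod (isCompact_uIcc (a := (0:ℝ)) (b := u))).exists_bound_of_continuousOn
    hcont2.continuousOn
  refine (intervalIntegral.hasDerivAt_integral_of_dominated_loc_of_deriv_le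
    (F := fun l r => ((u - r : ℝ) : ℂ) ^ k * exp (l * ((u - r : ℝ) : ℂ)) * v r)
    (F' := fun l r => ((u - r : ℝ) : ℂ) ^ (k+1) * exp (l * ((u - r : ℝ) : ℂ)) * v r)
    (bound := fun _ => B) (s := Metric.closedBall l 1)
    (Metric.closedBall_mem_nhds l one_pos) ?_ ?_ ?_ ?_ ?_ ?_).2
  · exact Eventually.of_forall fun x => (hcont k x).aestronglyMeasurable
  · exact (hcont k l).intervalIntegrable _ _
  · exact (hcont (k+1) l).aestronglyMeasurable
  · refine Eventually.of_forall fun t ht x hx => ?_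
    have := hB (x, t) ⟨hx, uIoc_subset_uIcc ht⟩
    simpa using this
  · exact intervalIntegrable_const
  · refine Eventually.of_forall fun t _ x _ => ?_
    have h1 : HasDerivAt (fun x : ℂ => x * ((u - t : ℝ) : ℂ)) (((u - t : ℝ) : ℂ)) x := by
      simpa using (hasDerivAt_id x).mul_const ((u - t : ℝ) : ℂ)
    have h2 := (h1.cexp.const_mul (((u - t : ℝ) : ℂ) ^ k)).mul_const (v t)
    exact h2.congr_deriv (by ring)

lemma iteratedDeriv_Wk {v : ℝ → ℂ} (hv : Continuous v) (k : ℕ) (u : ℝ) :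
    iteratedDeriv k (Wk v 0 u) = Wk v k u := by
  induction k with
  | zero => simp
  | succ k ih =>
    rw [iteratedDeriv_succ, ih]
    funext l
    exact (hasDerivAt_Wk hv k u l).deriv

lemma differentiable_Wk {v : ℝ → ℂ} (hv : Continuous v) (k : ℕ) (u : ℝ) :
    Differentiable ℂ (Wk v k u) := fun l => (hasDerivAt_Wk hv k u l).differentiableAt

/-- shift identity -/
lemma Wk_shift {v : ℝ → ℂ} (hv : Continuous v) (s τ : ℝ) (l : ℂ) :
    Wk (fun r => v (r + τ)) 0 s l = Wk v 0 (s + τ) l - exp (l * s) * Wk v 0 τ l := by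
  unfold Wk
  simp only [pow_zero, one_mul]
  have h1 : (∫ r in (0:ℝ)..s, exp (l * ((s - r : ℝ) : ℂ)) * v (r + τ)) =
      ∫ r in τ..(s + τ), exp (l * ((s + τ - r : ℝ) : ℂ)) * v r := by
    have := intervalIntegral.integral_comp_add_right (a := 0) (b := s)
      (fun r => exp (l * ((s + τ - r : ℝ) : ℂ)) * v r) τ
    rw [zero_add] at this
    rw [← this]
    congr 1
    funext r
    congr 4
    ring
  have h2 : exp (l * s) * (∫ r in (0:ℝ)..τ, exp (l * ((τ - r : ℝ) : ℂ)) * v r) =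
      ∫ r in (0:ℝ)..τ, exp (l * ((s + τ - r : ℝ) : ℂ)) * v r := by
    rw [← intervalIntegral.integral_const_mul]
    congr 1
    funext r
    rw [← mul_assoc, ← exp_add]
    congr 2
    push_cast
    ring
  rw [h1, h2]
  have hc : Continuous (fun r : ℝ => exp (l * ((s + τ - r : ℝ) : ℂ)) * v r) := by fun_prop
  rw [eq_sub_iff_add_eq', intervalIntegral.integral_add_adjacent_intervals]
  · exact hc.intervalIntegrable _ _
  · exact hc.intervalIntegrable _ _

lemma norm_Wk_le {v : ℝ → ℂ} {M u : ℝ} (hu : 0 ≤ u) (hM : ∀ r ∈ Icc 0 u, ‖v r‖ ≤ M) (l : ℂ) :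
    ‖Wk v 0 u l‖ ≤ max 1 (Real.exp (l.re * u)) * M * u := by
  unfold Wk
  have := intervalIntegral.norm_integral_le_of_norm_le_const (a := 0) (b := u)
    (f := fun r : ℝ => ((u - r : ℝ) : ℂ) ^ 0 * exp (l * ((u - r : ℝ) : ℂ)) * v r)
    (C := max 1 (Real.exp (l.re * u)) * M) ?_
  · simpa [abs_of_nonneg hu] using this
  · intro r hr
    rw [uIoc_of_le hu] at hr
    rw [pow_zero, one_mul, norm_mul, Complex.norm_exp]
    have hre : (l * ((u - r : ℝ) : ℂ)).re = l.re * (u - r) := by simp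
    rw [hre]
    have h1 : Real.exp (l.re * (u - r)) ≤ max 1 (Real.exp (l.re * u)) := by
      rcases le_total l.re 0 with h | h
      · refine le_max_of_le_left ?_
        rw [Real.exp_le_one_iff]
        exact mul_nonpos_of_nonpos_of_nonneg h (by linarith [hr.2])
      · refine le_max_of_le_right ?_
        apply Real.exp_le_exp.mpr
        exact mul_le_mul_of_nonneg_left (by linarith [hr.1]) h
    exact mul_le_mul h1 (hM r ⟨hr.1.le, hr.2⟩) (norm_nonneg _) (by positivity)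

lemma tendsto_Wk {v : ℝ → ℂ} (hv : Continuous v) {u : ℝ} (hu : 0 ≤ u) :
    Tendsto (fun σ : ℝ => Wk v 0 u (σ : ℂ)) atBot (𝓝 0) := by
  unfold Wk
  have h0 : (0 : ℂ) = ∫ r in (0:ℝ)..u, (0 : ℂ) := by simp
  rw [h0]
  refine intervalIntegral.tendsto_integral_filter_of_dominated_convergence (fun r => ‖v r‖) ?_ ?_ ?_ ?_
  · exact Eventually.of_forall fun σ => (by fun_prop : Continuous _).aestronglyMeasurable
  · filter_upwards [eventually_le_atBot 0] with σ hσ
    refine Eventually.of_forall fun r hr => ?_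
    rw [uIoc_of_le hu] at hr
    rw [pow_zero, one_mul, norm_mul, Complex.norm_exp]
    have hre : ((σ : ℂ) * ((u - r : ℝ) : ℂ)).re = σ * (u - r) := by simp
    rw [hre]
    refine mul_le_of_le_one_left (norm_nonneg _) ?_
    rw [Real.exp_le_one_iff]
    exact mul_nonpos_of_nonpos_of_nonneg hσ (by linarith [hr.2])
  · exact hv.norm.intervalIntegrable _ _
  · have hne : ∀ᵐ r : ℝ, r ≠ u := by
      simp [ae_iff, measure_singleton]
    filter_upwards [hne] with r hru hr
    rw [uIoc_of_le hu] at hr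
    have hpos : 0 < u - r := by
      have := lt_of_le_of_ne hr.2 hru
      linarith
    have h1 : Tendsto (fun σ : ℝ => Real.exp (σ * (u - r))) atBot (𝓝 0) :=
      Real.tendsto_exp_atBot.comp (tendsto_id.atBot_mul_const hpos)
    rw [tendsto_zero_iff_norm_tendsto_zero]
    have h2 : (fun σ : ℝ => ‖((u - r : ℝ) : ℂ) ^ 0 * exp ((σ : ℂ) * ((u - r : ℝ) : ℂ)) * v r‖) =
        fun σ : ℝ => Real.exp (σ * (u - r)) * ‖v r‖ := by
      funext σ
      rw [pow_zero, one_mul, norm_mul, Complex.norm_exp]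
      congr 2
      simp
    rw [h2]
    simpa using h1.mul_const ‖v r‖

end Pool.Agent.HypSemi
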