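import Pool.Agent.HypSemi.Quot

open Complex Filter Topology Set MeasureTheory intervalIntegral
open scoped NNReal

namespace Pool.Agent.HypSemi

/-- `∑_{s ∈ F} c_s ∫_0^s (s-r)^k e^{l(s-r)} v(r) dr`. -/
noncomputable def gsum (F : Finset ℝ) (c : ℝ → ℂ) (v : ℝ → ℂ) (k : ℕ) (l : ℂ) : ℂ :=
  ∑ s ∈ F, c s * Wk v k s l

lemma differentiable_gsum (F : Finset ℝ) (c : ℝ → ℂ) {v : ℝ → ℂ} (hv : Continuous v) (k : ℕ) :
    Differentiable ℂ (gsum F c v k) := by
  unfold gsum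
  have := fun s => differentiable_Wk hv k s
  fun_prop

lemma norm_gsum_le {F : Finset ℝ} (hF : ∀ s ∈ F, 0 ≤ s) {c : ℝ → ℂ} {v : ℝ → ℂ} {M L : ℝ}
    (hL : ∀ s ∈ F, s ≤ L) (hL0 : 0 ≤ L) (hM0 : 0 ≤ M)
    (hM : ∀ r ∈ Icc 0 L, ‖v r‖ ≤ M) (l : ℂ) :
    ‖gsum F c v 0 l‖ ≤ (∑ s ∈ F, ‖c s‖) * M * L * max 1 (Real.exp (l.re * L)) := by
  unfold gsum
  refine (norm_sum_le _ _).trans ?_
  rw [Finset.sum_mul, Finset.sum_mul, Finset.sum_mul]
  refine Finset.sum_le_sum fun s hs => ?_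
  rw [norm_mul]
  have h1 := norm_Wk_le (hF s hs) (M := M) (v := v)
    (fun r hr => hM r ⟨hr.1, hr.2.trans (hL s hs)⟩) l
  have h2 : max 1 (Real.exp (l.re * s)) ≤ max 1 (Real.exp (l.re * L)) := by
    rcases le_total l.re 0 with h | h
    · refine (max_le le_rfl ?_).trans (le_max_left _ _)
      rw [Real.exp_le_one_iff]
      exact mul_nonpos_of_nonpos_of_nonneg h (hF s hs)
    · refine max_le_max le_rfl (Real.exp_le_exp.mpr ?_)
      exact mul_le_mul_of_nonneg_left (hL s hs) h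
  calc ‖c s‖ * ‖Wk v 0 s l‖ ≤ ‖c s‖ * (max 1 (Real.exp (l.re * s)) * M * s) :=
        mul_le_mul_of_nonneg_left h1 (norm_nonneg _)
    _ ≤ ‖c s‖ * (max 1 (Real.exp (l.re * L)) * M * L) := by
        refine mul_le_mul_of_nonneg_left ?_ (norm_nonneg _)
        refine mul_le_mul (mul_le_mul_of_nonneg_right h2 hM0) (hL s hs) (hF s hs) (by positivity)
    _ = ‖c s‖ * M * L * max 1 (Real.exp (l.re * L)) := by ring

/-- A function on a vertical strip bounded on boundary and on good lines. -/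
lemma bounded_of_lines {h : ℂ → ℂ} (hh : Differentiable ℂ h) {ω B : ℝ} (hω : 0 < ω)
    (hleft : ∀ l : ℂ, l.re = -ω → ‖h l‖ ≤ B) (hright : ∀ l : ℂ, l.re = ω → ‖h l‖ ≤ B)
    (hlines : ∀ y : ℝ, ∃ η ∈ Icc y (y + 1), ∀ σ ∈ Icc (-ω) ω, ‖h ((σ : ℂ) + η * I)‖ ≤ B)
    (l : ℂ) (hl : l.re ∈ Icc (-ω) ω) : ‖h l‖ ≤ B := by
  obtain ⟨η₁, hη₁, h₁⟩ := hlines (l.im - 2)
  obtain ⟨η₂, hη₂, h₂⟩ := hlines (l.im + 1)
  have hlt : η₁ < η₂ := by linarith [hη₁.2, hη₂.1]
  have hlt' : -ω < ω := by linarith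
  have hb : Bornology.IsBounded (Ioo (-ω) ω ×ℂ Ioo η₁ η₂) :=
    (Metric.isBounded_Ioo _ _).reProdIm (Metric.isBounded_Ioo _ _)
  refine norm_le_of_forall_mem_frontier_norm_le hb hh.diffContOnCl ?_ ?_
  · intro z hz
    rw [frontier_reProdIm, closure_Ioo hlt'.ne, frontier_Ioo hlt, frontier_Ioo hlt',
      closure_Ioo hlt.ne] at hz
    have hz' : z = ((z.re : ℝ) : ℂ) + (z.im : ℝ) * I := (re_add_im z).symm
    rcases hz with hz | hz
    · rw [mem_reProdIm] at hz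
      rcases hz.2 with h | h
      · have := h₁ z.re hz.1
        rwa [← h, ← hz'] at this
      · have := h₂ z.re hz.1
        rw [mem_singleton_iff] at h
        rwa [← h, ← hz'] at this
    · rw [mem_reProdIm] at hz
      rcases hz.1 with h | h
      · exact hleft z h
      · exact hright z h
  · rw [closure_reProdIm, closure_Ioo hlt'.ne, closure_Ioo hlt.ne, mem_reProdIm]
    exact ⟨hl, by linarith [hη₁.2], by linarith [hη₂.1]⟩

theorem gsum_eq_zero {F : Finset ℝ} (hF : ∀ s ∈ F, 0 ≤ s) (h0 : (0:ℝ) ∈ F) {c : ℝ → ℂ}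
    (hc : ∀ s ∈ F, c s ≠ 0) {v : ℝ → ℂ} (hv : Continuous v)
    (hord : ∀ l, analyticOrderAt (expSum F c) l ≤ analyticOrderAt (gsum F c v 0) l) (l : ℂ) :
    gsum F c v 0 l = 0 := by
  have hne : F.Nonempty := ⟨0, h0⟩
  set L := F.max' hne with hLdef
  have hLmem : L ∈ F := F.max'_mem hne
  have hL0 : 0 ≤ L := hF L hLmem
  have hLle : ∀ s ∈ F, s ≤ L := fun s hs => F.le_max' s hs
  obtain ⟨M', hM'⟩ := (isCompact_Icc (a := (0:ℝ)) (b := L)).exists_bound_of_continuousOn hv.continuousOn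
  set M := max M' 0 with hMdef
  have hM0 : 0 ≤ M := le_max_right _ _
  have hM : ∀ r ∈ Icc 0 L, ‖v r‖ ≤ M := fun r hr => (hM' r hr).trans (le_max_left _ _)
  set C := (∑ s ∈ F, ‖c s‖) * M * L with hC
  have hC0 : 0 ≤ C := by
    have : 0 ≤ ∑ s ∈ F, ‖c s‖ := Finset.sum_nonneg fun s _ => norm_nonneg _
    positivity
  have hg : ∀ l, ‖gsum F c v 0 l‖ ≤ C * max 1 (Real.exp (l.re * L)) :=
    norm_gsum_le hF hLle hL0 hM0 hM
  have hc0 := hc 0 h0
  have hcL := hc L hLmem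
  obtain ⟨h, hhd, hgh⟩ := exists_entire_quotient (differentiable_expSum F c)
    (differentiable_gsum F c hv 0) (exists_expSum_ne_zero hF h0 hc0) hord
  -- left and right bounds
  obtain ⟨ω₀, hω₀⟩ := eventually_atBot.mp (expSum_left hF h0 hc0)
  obtain ⟨ω₁, hω₁⟩ := eventually_atTop.mp (expSum_right hne hcL)
  set ω := max 1 (max |ω₀| |ω₁|) with hωdef
  have hω1 : 1 ≤ ω := le_max_left _ _
  have hωpos : 0 < ω := by linarith
  have hωa : |ω₀| ≤ ω := (le_max_left _ _).trans (le_max_right _ _)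
  have hωb : |ω₁| ≤ ω := (le_max_right _ _).trans (le_max_right _ _)
  have hdiv : ∀ {l : ℂ} {a b : ℝ}, 0 < a → a ≤ ‖expSum F c l‖ → ‖gsum F c v 0 l‖ ≤ b →
      ‖h l‖ ≤ b / a := by
    intro l a b ha hfa hgb
    rw [hgh l, norm_mul] at hgb
    rw [le_div_iff₀ ha, mul_comm]
    exact (mul_le_mul_of_nonneg_right hfa (norm_nonneg _)).trans hgb
  have hleft : ∀ l : ℂ, l.re ≤ -ω → ‖h l‖ ≤ C / (‖c 0‖ / 2) := by
    intro l hl
    have hl0 : l.re ≤ ω₀ := hl.trans (by linarith [neg_abs_le ω₀])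
    refine hdiv (by positivity) (hω₀ l.re hl0 l rfl) ((hg l).trans ?_)
    have : max 1 (Real.exp (l.re * L)) = 1 := by
      refine max_eq_left ?_
      rw [Real.exp_le_one_iff]
      exact mul_nonpos_of_nonpos_of_nonneg (by linarith) hL0
    rw [this, mul_one]
  have hright : ∀ l : ℂ, ω ≤ l.re → ‖h l‖ ≤ C / (‖c L‖ / 2) := by
    intro l hl
    have hl0 : ω₁ ≤ l.re := (le_abs_self ω₁).trans (hωb.trans hl)
    have h1 := hω₁ l.re hl0 l rfl
    have h2 : max 1 (Real.exp (l.re * L)) = Real.exp (l.re * L) := by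
      refine max_eq_right ?_
      rw [Real.one_le_exp_iff]
      exact mul_nonneg (by linarith) hL0
    have h3 := hg l
    rw [h2] at h3
    have h4 : 0 < ‖c L‖ / 2 := by positivity
    have h5 := hdiv (mul_pos h4 (Real.exp_pos (l.re * L))) h1 h3
    rwa [mul_div_mul_right _ _ (Real.exp_pos _).ne'] at h5
  obtain ⟨δ, hδ, hlines⟩ := good_lines hF h0 hc0 ω
  have hmid : ∀ y : ℝ, ∃ η ∈ Icc y (y + 1), ∀ σ ∈ Icc (-ω) ω,
      ‖h ((σ : ℂ) + η * I)‖ ≤ C * Real.exp (ω * L) / δ := by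
    intro y
    obtain ⟨η, hη, hh⟩ := hlines y
    refine ⟨η, hη, fun σ hσ => hdiv hδ (hh σ hσ) ((hg _).trans ?_)⟩
    refine mul_le_mul_of_nonneg_left ?_ hC0
    have hre : ((σ : ℂ) + η * I).re = σ := by simp
    rw [hre]
    refine max_le ?_ (Real.exp_le_exp.mpr (mul_le_mul_of_nonneg_right hσ.2 hL0))
    rw [Real.one_le_exp_iff]
    positivity
  set B := max (C / (‖c 0‖ / 2)) (max (C / (‖c L‖ / 2)) (C * Real.exp (ω * L) / δ)) with hB
  have hB1 : C / (‖c 0‖ / 2) ≤ B := le_max_left _ _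
  have hB2 : C / (‖c L‖ / 2) ≤ B := (le_max_left _ _).trans (le_max_right _ _)
  have hB3 : C * Real.exp (ω * L) / δ ≤ B := (le_max_right _ _).trans (le_max_right _ _)
  have hbound : ∀ l : ℂ, ‖h l‖ ≤ B := by
    intro l
    rcases le_total l.re (-ω) with h1 | h1
    · exact (hleft l h1).trans hB1
    · rcases le_total ω l.re with h2 | h2
      · exact (hright l h2).trans hB2
      · refine bounded_of_lines hhd hωpos (fun z hz => (hleft z hz.le).trans hB1)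
          (fun z hz => (hright z hz.ge).trans hB2) (fun y => ?_) l ⟨h1, h2⟩
        obtain ⟨η, hη, hh⟩ := hmid y
        exact ⟨η, hη, fun σ hσ => (hh σ hσ).trans hB3⟩
  have hconst : ∀ z w, h z = h w := by
    intro z w
    apply hhd.apply_eq_apply_of_bounded
    rw [isBounded_iff_forall_norm_le]
    exact ⟨B, by rintro _ ⟨x, rfl⟩; exact hbound x⟩
  -- limit at -∞
  have hlim : Tendsto (fun σ : ℝ => gsum F c v 0 (σ : ℂ)) atBot (𝓝 0) := by
    unfold gsum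
    have : (0 : ℂ) = ∑ s ∈ F, c s * 0 := by simp
    rw [this]
    exact tendsto_finsetSum _ fun s hs => (tendsto_Wk hv (hF s hs)).const_mul _
  have hlim2 : Tendsto (fun _ : ℝ => h 0) atBot (𝓝 0) := by
    rw [tendsto_zero_iff_norm_tendsto_zero]
    have h1 : Tendsto (fun σ : ℝ => ‖gsum F c v 0 (σ : ℂ)‖ / (‖c 0‖ / 2)) atBot (𝓝 0) := by
      simpa using hlim.norm.div_const (‖c 0‖ / 2)
    refine tendsto_of_tendsto_of_tendsto_of_le_of_le' tendsto_const_nhds h1 ?_ ?_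
    · exact Eventually.of_forall fun _ => norm_nonneg _
    · filter_upwards [expSum_left hF h0 hc0] with σ hσ
      rw [hconst 0 (σ : ℂ)]
      exact hdiv (by positivity) (hσ (σ : ℂ) (by simp)) le_rfl
  have hzero : h 0 = 0 := tendsto_nhds_unique tendsto_const_nhds hlim2
  rw [hgh l, hconst l 0, hzero, mul_zero]

end Pool.Agent.HypSemi
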