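import Pool.Agent.HypSemi.Basic

open Complex Filter Topology Set MeasureTheory intervalIntegral
open scoped NNReal

namespace Pool.Agent.HypSemi

/-- The exponential sum `∑_{s ∈ F} c_s e^{l s}`. -/
noncomputable def expSum (F : Finset ℝ) (c : ℝ → ℂ) (l : ℂ) : ℂ :=
  ∑ s ∈ F, c s * exp (l * s)

lemma differentiable_expSum (F : Finset ℝ) (c : ℝ → ℂ) : Differentiable ℂ (expSum F c) := by
  unfold expSum
  fun_prop

lemma expSum_dominant {F : Finset ℝ} {c : ℝ → ℂ} {s0 : ℝ} (hs0 : s0 ∈ F) (hc : c s0 ≠ 0)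
    {L : Filter ℝ} (hL : ∀ s ∈ F, s ≠ s0 → Tendsto (fun σ : ℝ => σ * (s - s0)) L atBot) :
    ∀ᶠ σ in L, ∀ l : ℂ, l.re = σ → ‖c s0‖ / 2 * Real.exp (σ * s0) ≤ ‖expSum F c l‖ := by
  have h1 : Tendsto (fun σ : ℝ => ∑ s ∈ F.erase s0, ‖c s‖ * Real.exp (σ * (s - s0))) L (𝓝 0) := by
    have : (0 : ℝ) = ∑ s ∈ F.erase s0, ‖c s‖ * 0 := by simp
    rw [this]
    refine tendsto_finsetSum _ fun s hs => ?_
    exact (Real.tendsto_exp_atBot.comp (hL s (Finset.mem_of_mem_erase hs)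
      (Finset.ne_of_mem_erase hs))).const_mul _
  have hpos : 0 < ‖c s0‖ / 2 := by positivity
  filter_upwards [h1.eventually (gt_mem_nhds hpos)] with σ hσ l hl
  have h2 : expSum F c l = exp (l * s0) * (c s0 + ∑ s ∈ F.erase s0, c s * exp (l * (s - s0))) := by
    unfold expSum
    rw [← Finset.add_sum_erase _ _ hs0, mul_add, Finset.mul_sum]
    congr 1
    · ring
    · refine Finset.sum_congr rfl fun s _ => ?_
      rw [mul_left_comm, ← exp_add]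
      congr 2
      ring
  rw [h2, norm_mul, Complex.norm_exp]
  have h3 : (l * (s0 : ℂ)).re = σ * s0 := by simp [hl]
  rw [h3, mul_comm]
  refine mul_le_mul_of_nonneg_left ?_ (Real.exp_pos _).le
  have h4 : ‖∑ s ∈ F.erase s0, c s * exp (l * (s - s0))‖ ≤
      ∑ s ∈ F.erase s0, ‖c s‖ * Real.exp (σ * (s - s0)) := by
    refine (norm_sum_le _ _).trans (Finset.sum_le_sum fun s _ => ?_)
    rw [norm_mul, Complex.norm_exp]
    have : (l * ((s : ℂ) - (s0 : ℂ))).re = σ * (s - s0) := by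
      rw [← ofReal_sub, re_mul_ofReal, hl]
    rw [this]
  have h5 := norm_sub_le_norm_add (c s0) (∑ s ∈ F.erase s0, c s * exp (l * (s - s0)))
  linarith

lemma expSum_left {F : Finset ℝ} (hF : ∀ s ∈ F, 0 ≤ s) (h0 : (0:ℝ) ∈ F) {c : ℝ → ℂ}
    (hc0 : c 0 ≠ 0) : ∀ᶠ σ : ℝ in atBot, ∀ l : ℂ, l.re = σ → ‖c 0‖ / 2 ≤ ‖expSum F c l‖ := by
  have := expSum_dominant (L := atBot) h0 hc0 (fun s hs hs0 => ?_)
  · simpa using this
  · have : 0 < s - 0 := by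
      rw [sub_zero]; exact lt_of_le_of_ne (hF s hs) (Ne.symm hs0)
    exact tendsto_id.atBot_mul_const this

lemma expSum_right {F : Finset ℝ} (hne : F.Nonempty) {c : ℝ → ℂ}
    (hc : c (F.max' hne) ≠ 0) : ∀ᶠ σ : ℝ in atTop, ∀ l : ℂ, l.re = σ →
      ‖c (F.max' hne)‖ / 2 * Real.exp (σ * F.max' hne) ≤ ‖expSum F c l‖ := by
  refine expSum_dominant (L := atTop) (F.max'_mem hne) hc (fun s hs hs0 => ?_)
  have : s - F.max' hne < 0 := by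
    have := lt_of_le_of_ne (F.le_max' s hs) hs0
    linarith
  exact tendsto_id.atTop_mul_const_of_neg this

lemma exists_expSum_ne_zero {F : Finset ℝ} (hF : ∀ s ∈ F, 0 ≤ s) (h0 : (0:ℝ) ∈ F) {c : ℝ → ℂ}
    (hc0 : c 0 ≠ 0) : ∃ l : ℂ, expSum F c l ≠ 0 := by
  obtain ⟨σ, hσ⟩ := (expSum_left hF h0 hc0).exists
  refine ⟨(σ : ℂ), fun h => ?_⟩
  have := hσ (σ : ℂ) (by simp)
  rw [h, norm_zero] at this
  have : 0 < ‖c 0‖ / 2 := by positivity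
  linarith

/-- zeros in a compact set are finite -/
lemma finite_zeros {f : ℂ → ℂ} (hf : Differentiable ℂ f) (hne : ∃ l, f l ≠ 0) {K : Set ℂ}
    (hK : IsCompact K) : (K ∩ {l | f l = 0}).Finite := by
  obtain ⟨l0, hl0⟩ := hne
  have han : AnalyticOnNhd ℂ f univ := fun z _ => hf.analyticAt z
  have h1 : f ⁻¹' {0}ᶜ ∈ codiscrete ℂ := by
    have := han.preimage_zero_mem_codiscrete hl0
    simpa using this
  have h2 : f ⁻¹' {0}ᶜ ∈ codiscreteWithin K := codiscreteWithin_mono (subset_univ K) h1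
  have h3 := hK.finite_sdiff_of_mem_codiscreteWithin h2
  refine h3.subset fun z hz => ⟨hz.1, ?_⟩
  simpa using hz.2

lemma continuous_expSum_twist (F : Finset ℝ) (c : ℝ → ℂ) (η : ℝ) :
    Continuous (fun p : (ℝ → Circle) × ℝ =>
      ‖expSum F (fun s => c s * (p.1 s : ℂ)) ((p.2 : ℂ) + η * I)‖) := by
  unfold expSum
  refine Continuous.norm (continuous_finsetSum _ fun s _ => ?_)
  refine Continuous.mul (continuous_const.mul ?_) ?_
  · have h1 : Continuous (fun w : ℝ → Circle => ((w s : Circle) : ℂ)) := by fun_prop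
    exact h1.comp continuous_fst
  · fun_prop

/-- Property used in the compactness argument. -/
def GoodSet (F : Finset ℝ) (c : ℝ → ℂ) (ω : ℝ) (S : Set (ℝ → Circle)) : Prop :=
  ∃ δ > 0, ∀ w ∈ S, ∃ η ∈ Icc (0:ℝ) 1, ∀ σ ∈ Icc (-ω) ω,
      δ ≤ ‖expSum F (fun s => c s * (w s : ℂ)) ((σ : ℂ) + η * I)‖

lemma exists_line {f : ℂ → ℂ} (hfd : Differentiable ℂ f) (hfne : ∃ l, f l ≠ 0) (ω : ℝ) :
    ∃ η ∈ Icc (0:ℝ) 1, ∃ δ > 0, ∀ σ ∈ Icc (-ω) ω, δ < ‖f ((σ : ℂ) + η * I)‖ := by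
  have hK : IsCompact (Icc (-ω) ω ×ℂ Icc (0:ℝ) 1) := isCompact_Icc.reProdIm isCompact_Icc
  have hfin := (finite_zeros hfd hfne hK).image Complex.im
  have hinf : (Icc (0:ℝ) 1).Infinite := Icc_infinite one_pos
  obtain ⟨η, hη, hη'⟩ := hinf.exists_notMem_finite hfin
  have hnz : ∀ σ ∈ Icc (-ω) ω, f ((σ : ℂ) + η * I) ≠ 0 := by
    intro σ hσ h
    apply hη'
    refine ⟨(σ : ℂ) + η * I, ⟨?_, h⟩, by simp⟩
    rw [mem_reProdIm]
    simpa using ⟨hσ, hη⟩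
  refine ⟨η, hη, ?_⟩
  rcases (Icc (-ω) ω).eq_empty_or_nonempty with he | hne
  · exact ⟨1, one_pos, fun σ hσ => by rw [he] at hσ; exact absurd hσ (notMem_empty σ)⟩
  · have hc1 : ContinuousOn (fun σ : ℝ => ‖f ((σ : ℂ) + η * I)‖) (Icc (-ω) ω) := by
      have : Continuous f := hfd.continuous
      fun_prop
    obtain ⟨σ0, hσ0, hmin⟩ := isCompact_Icc.exists_isMinOn hne hc1
    have hpos : 0 < ‖f ((σ0 : ℂ) + η * I)‖ := norm_pos_iff.mpr (hnz σ0 hσ0)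
    refine ⟨‖f ((σ0 : ℂ) + η * I)‖ / 2, by positivity, fun σ hσ => ?_⟩
    have := isMinOn_iff.mp hmin σ hσ
    linarith

lemma goodSet_local {F : Finset ℝ} (hF : ∀ s ∈ F, 0 ≤ s) (h0 : (0:ℝ) ∈ F) {c : ℝ → ℂ}
    (hc0 : c 0 ≠ 0) (ω : ℝ) (w0 : ℝ → Circle) : ∃ T ∈ 𝓝 w0, GoodSet F c ω T := by
  have hc0' : (fun s => c s * (w0 s : ℂ)) 0 ≠ 0 := by
    simp only [ne_eq, mul_eq_zero, not_or]
    exact ⟨hc0, Circle.coe_ne_zero _⟩
  obtain ⟨η, hη, δ, hδ, hδ'⟩ := exists_line (differentiable_expSum F (fun s => c s * (w0 s : ℂ)))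
    (exists_expSum_ne_zero hF h0 hc0') ω
  have hcont := continuous_expSum_twist F c η
  have hev : ∀ᶠ w in 𝓝 w0, ∀ σ ∈ Icc (-ω) ω,
      δ < ‖expSum F (fun s => c s * (w s : ℂ)) ((σ : ℂ) + η * I)‖ := by
    refine isCompact_Icc.eventually_forall_of_forall_eventually fun σ hσ => ?_
    exact (hcont.tendsto (w0, σ)).eventually (lt_mem_nhds (hδ' σ hσ))
  exact ⟨_, hev, δ, hδ, fun w hw => ⟨η, hη, fun σ hσ => (hw σ hσ).le⟩⟩

lemma goodSet_univ {F : Finset ℝ} (hF : ∀ s ∈ F, 0 ≤ s) (h0 : (0:ℝ) ∈ F) {c : ℝ → ℂ}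
    (hc0 : c 0 ≠ 0) (ω : ℝ) : GoodSet F c ω univ := by
  refine isCompact_univ.induction_on (p := GoodSet F c ω) ?_ ?_ ?_ ?_
  · exact ⟨1, one_pos, fun w hw => absurd hw (notMem_empty w)⟩
  · rintro S S' hSS' ⟨δ, hδ, h⟩
    exact ⟨δ, hδ, fun w hw => h w (hSS' hw)⟩
  · rintro S S' ⟨δ, hδ, h⟩ ⟨δ', hδ', h'⟩
    refine ⟨min δ δ', lt_min hδ hδ', fun w hw => ?_⟩
    rcases hw with hw | hw
    · obtain ⟨η, hη, hh⟩ := h w hw
      exact ⟨η, hη, fun σ hσ => (min_le_left _ _).trans (hh σ hσ)⟩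
    · obtain ⟨η, hη, hh⟩ := h' w hw
      exact ⟨η, hη, fun σ hσ => (min_le_right _ _).trans (hh σ hσ)⟩
  · intro w0 _
    obtain ⟨T, hT, hT'⟩ := goodSet_local hF h0 hc0 ω w0
    exact ⟨T, mem_nhdsWithin_of_mem_nhds hT, hT'⟩

lemma good_lines {F : Finset ℝ} (hF : ∀ s ∈ F, 0 ≤ s) (h0 : (0:ℝ) ∈ F) {c : ℝ → ℂ}
    (hc0 : c 0 ≠ 0) (ω : ℝ) : ∃ δ > 0, ∀ y : ℝ, ∃ η ∈ Icc y (y + 1), ∀ σ ∈ Icc (-ω) ω,
      δ ≤ ‖expSum F c ((σ : ℂ) + η * I)‖ := by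
  obtain ⟨δ, hδ, h⟩ := goodSet_univ hF h0 hc0 ω
  refine ⟨δ, hδ, fun y => ?_⟩
  obtain ⟨η, hη, hh⟩ := h (fun s => Circle.exp (y * s)) (mem_univ _)
  refine ⟨y + η, ⟨by linarith [hη.1], by linarith [hη.2]⟩, fun σ hσ => ?_⟩
  have h1 := hh σ hσ
  have h2 : expSum F (fun s => c s * (Circle.exp (y * s) : ℂ)) ((σ : ℂ) + η * I) =
      expSum F c ((σ : ℂ) + ((y + η : ℝ) : ℂ) * I) := by
    unfold expSum
    refine Finset.sum_congr rfl fun s _ => ?_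
    rw [mul_assoc, Circle.coe_exp, ← exp_add]
    congr 2
    push_cast
    ring
  rw [h2] at h1
  exact h1

end Pool.Agent.HypSemi
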