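import Pool.Agent.HypSemi.Semi

open Complex Filter Topology Set MeasureTheory intervalIntegral
open scoped NNReal

namespace Pool.Agent.HypSemi

lemma rclike_map_mul {𝕜 : Type*} [RCLike 𝕜] (a b : 𝕜) :
    RCLike.map 𝕜 ℂ (a * b) = RCLike.map 𝕜 ℂ a * RCLike.map 𝕜 ℂ b := by
  apply Complex.ext
  · simp [RCLike.map_apply]
  · simp [RCLike.map_apply]

lemma rclike_map_injective {𝕜 : Type*} [RCLike 𝕜] {a : 𝕜} (h : RCLike.map 𝕜 ℂ a = 0) : a = 0 := by
  rw [RCLike.map_apply] at h
  have h1 := congrArg Complex.re h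
  have h2 := congrArg Complex.im h
  simp at h1 h2
  exact RCLike.ext (by simpa using h1) (by simpa using h2)

section

variable {𝕜 : Type*} [RCLike 𝕜] {X : Type*} [NormedAddCommGroup X] [NormedSpace 𝕜 X]

/-- A continuous linear map killing a vector with dense orbit and commuting with the semigroup
vanishes. -/
lemma eq_zero_of_dense {T : ℝ≥0 → X →L[𝕜] X} {z : X} (hz : Dense (range fun t => T t z))
    {p : X →L[𝕜] X} (hp : ∀ t, p (T t z) = 0) (x : X) : p x = 0 := by
  have hcl : IsClosed {x | p x = 0} := isClosed_eq p.continuous continuous_const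
  have hsub : range (fun t => T t z) ⊆ {x | p x = 0} := by
    rintro _ ⟨t, rfl⟩
    exact hp t
  have := hcl.closure_subset_iff.mpr hsub
  rw [hz.closure_eq] at this
  exact this (mem_univ x)

/-- the tail of a dense orbit is dense -/
lemma dense_tail (hdim : ¬ FiniteDimensional 𝕜 X) {T : ℝ≥0 → X →L[𝕜] X}
    (hTcont : ∀ x : X, Continuous fun t : ℝ≥0 => T t x)
    {z : X} (hz : Dense (range fun t => T t z)) (t0 : ℝ≥0) :
    Dense ((fun t => T t z) '' Ici t0) := by
  have hK : IsCompact ((fun t => T t z) '' Icc 0 t0) := (isCompact_Icc).image (hTcont z)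
  have hKint : interior ((fun t => T t z) '' Icc 0 t0) = ∅ := by
    by_contra hne
    obtain ⟨x, hx⟩ := nonempty_iff_ne_empty.mpr hne
    apply hdim
    have hloc : LocallyCompactSpace X := by
      refine (hK.locallyCompactSpace_of_mem_nhds_of_addGroup (x := x) ?_)
      exact mem_interior_iff_mem_nhds.mp hx
    exact FiniteDimensional.of_locallyCompactSpace 𝕜
  have hd : Dense (((fun t => T t z) '' Icc 0 t0)ᶜ) := interior_eq_empty_iff_dense_compl.mp hKint
  have hopen : IsOpen (((fun t => T t z) '' Icc 0 t0)ᶜ) := hK.isClosed.isOpen_compl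
  have hd2 := hz.inter_of_isOpen_right hd hopen
  refine hd2.mono ?_
  rintro _ ⟨⟨t, rfl⟩, ht⟩
  refine ⟨t, ?_, rfl⟩
  by_contra hlt
  apply ht
  exact ⟨t, ⟨zero_le, (not_le.mp hlt).le⟩, rfl⟩

variable [NormedSpace ℝ X] [IsScalarTower ℝ 𝕜 X]

theorem main_aux [CompleteSpace X] (hdim : ¬ FiniteDimensional 𝕜 X)
    (T : ℝ≥0 → X →L[𝕜] X)
    (hT0 : T 0 = ContinuousLinearMap.id 𝕜 X)
    (hTadd : ∀ s t : ℝ≥0, T (s + t) = (T s).comp (T t))
    (hTcont : ∀ x : X, Continuous fun t : ℝ≥0 => T t x)
    (z : X) (hz : Dense (Set.range fun t : ℝ≥0 => T t z)) :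
    LinearIndependent 𝕜 (fun t : ℝ≥0 => T t z) := by
  classical
  rw [linearIndependent_iff']
  intro A g hsum
  by_contra hcon
  push Not at hcon
  obtain ⟨i0, hi0, hgi0⟩ := hcon
  have hadd' : ∀ s t x, T (s + t) x = T s (T t x) := fun s t x => by rw [hTadd]; rfl
  have hcomm : ∀ s t x, T s (T t x) = T t (T s x) := fun s t x => by
    rw [← hadd', ← hadd', add_comm]
  -- restrict to nonzero coefficients
  set B := A.filter (fun i => g i ≠ 0) with hB
  have hBne : B.Nonempty := ⟨i0, by simp [hB, hi0, hgi0]⟩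
  have hBsum : ∑ i ∈ B, g i • T i z = 0 := by
    rw [← hsum, hB, Finset.sum_filter]
    refine Finset.sum_congr rfl fun i _ => ?_
    by_cases h : g i = 0 <;> simp [h]
  have hBg : ∀ i ∈ B, g i ≠ 0 := fun i hi => (Finset.mem_filter.mp hi).2
  set t0 := B.min' hBne with ht0
  have ht0B : t0 ∈ B := B.min'_mem hBne
  have ht0le : ∀ i ∈ B, t0 ≤ i := fun i hi => B.min'_le i hi
  -- operator relation
  have hop : ∀ x, ∑ i ∈ B, g i • T i x = 0 := by
    intro x
    have := eq_zero_of_dense hz (p := ∑ i ∈ B, g i • T i) (fun t => ?_) x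
    · simpa [sum_apply] using this
    · have h1 : (∑ i ∈ B, g i • T i) (T t z) = T t (∑ i ∈ B, g i • T i z) := by
        rw [sum_apply, map_sum]
        refine Finset.sum_congr rfl fun i _ => ?_
        rw [smul_apply, map_smul, hcomm]
      rw [h1, hBsum, map_zero]
  have hop2 : ∀ x, ∑ i ∈ B, g i • T (i - t0) x = 0 := by
    intro x
    have hcl : IsClosed {x | ∑ i ∈ B, g i • T (i - t0) x = 0} := by
      refine isClosed_eq ?_ continuous_const
      refine continuous_finsetSum _ fun i _ => ?_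
      exact ((T (i - t0)).continuous).const_smul (g i)
    have hsub : ((fun t => T t z) '' Ici t0) ⊆ {x | ∑ i ∈ B, g i • T (i - t0) x = 0} := by
      rintro _ ⟨t, ht, rfl⟩
      show ∑ i ∈ B, g i • T (i - t0) (T t z) = 0
      rw [← hop (T (t - t0) z)]
      refine Finset.sum_congr rfl fun i hi => ?_
      congr 1
      rw [← hadd', ← hadd']
      congr 2
      have h1 := ht0le i hi
      have h2 : t0 ≤ t := ht
      apply NNReal.coe_injective
      push_cast [NNReal.coe_sub h1, NNReal.coe_sub h2]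
      ring
    have := hcl.closure_subset_iff.mpr hsub
    rw [(dense_tail hdim hTcont hz t0).closure_eq] at this
    exact this (mem_univ x)
  -- data for the core theorem
  set F : Finset ℝ := B.image (fun i => ((i - t0 : ℝ≥0) : ℝ)) with hF
  set c : ℝ → ℂ := fun s => RCLike.map 𝕜 ℂ (g (t0 + s.toNNReal)) with hc
  have hinj : Set.InjOn (fun i : ℝ≥0 => ((i - t0 : ℝ≥0) : ℝ)) B := by
    intro i hi j hj hij
    have h1 := ht0le i hi
    have h2 := ht0le j hj
    have h3 : i - t0 = j - t0 := NNReal.coe_injective hij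
    rw [← tsub_add_cancel_of_le h1, h3, tsub_add_cancel_of_le h2]
  have hcB : ∀ i ∈ B, c ((i - t0 : ℝ≥0) : ℝ) = RCLike.map 𝕜 ℂ (g i) := by
    intro i hi
    simp only [hc]
    rw [Real.toNNReal_coe, add_tsub_cancel_of_le (ht0le i hi)]
  have hall : ∀ ψ : StrongDual 𝕜 X, ψ = 0 := by
    intro ψ
    set φ : X →L[ℝ] ℂ := (RCLike.map 𝕜 ℂ).comp (ψ.restrictScalars ℝ) with hφ
    have hφ0 : φ = 0 := by
      refine core (S := fun t => (T t).restrictScalars ℝ) (z := z) (F := F) (c := c)
        ?_ ?_ ?_ ?_ φ ?_ ?_ ?_ ?_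
      · intro x; simp [hT0]
      · intro s t x; simp [hTadd]
      · intro x; exact hTcont x
      · exact hz
      · intro s hs
        obtain ⟨i, _, rfl⟩ := Finset.mem_image.mp hs
        exact NNReal.coe_nonneg _
      · exact Finset.mem_image.mpr ⟨t0, ht0B, by simp⟩
      · intro s hs
        obtain ⟨i, hi, rfl⟩ := Finset.mem_image.mp hs
        rw [hcB i hi]
        exact fun h => hBg i hi (rclike_map_injective h)
      · intro x r hr
        rw [hF, Finset.sum_image hinj]
        have h1 : ∀ i ∈ B, c ((i - t0 : ℝ≥0) : ℝ) * orb (fun t => (T t).restrictScalars ℝ) φ x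
            (r + ((i - t0 : ℝ≥0) : ℝ)) = RCLike.map 𝕜 ℂ (ψ (g i • T (i - t0) (T r.toNNReal x))) := by
          intro i hi
          rw [hcB i hi]
          unfold orb
          rw [Real.toNNReal_add hr (NNReal.coe_nonneg _), Real.toNNReal_coe]
          simp only [hφ, ContinuousLinearMap.coe_comp, Function.comp_apply,
            ContinuousLinearMap.coe_restrictScalars']
          rw [map_smul, smul_eq_mul, rclike_map_mul, ← hadd', add_comm]
        rw [Finset.sum_congr rfl h1, ← map_sum, ← map_sum, hop2, map_zero, map_zero]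
    ext x
    have h1 : φ x = 0 := by rw [hφ0]; rfl
    exact rclike_map_injective h1
  -- hence X is trivial
  apply hdim
  have hsub : Subsingleton X := by
    refine ⟨fun x y => ?_⟩
    rw [← sub_eq_zero]
    by_contra hne
    obtain ⟨ψ, _, hψ⟩ := exists_dual_vector 𝕜 (x - y) (norm_ne_zero_iff.mpr hne)
    rw [hall ψ] at hψ
    simp at hψ
    exact hne (by simpa using hψ.symm)
  infer_instance

end

end Pool.Agent.HypSemi
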