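import Pool.Agent.HypSemi.ExpSum

open Complex Filter Topology Set MeasureTheory intervalIntegral
open scoped NNReal

namespace Pool.Agent.HypSemi

lemma analyticOrderAt_ne_top_of_entire {f : ℂ → ℂ} (hf : Differentiable ℂ f)
    (hne : ∃ l, f l ≠ 0) (l : ℂ) : analyticOrderAt f l ≠ ⊤ := by
  intro h
  rw [analyticOrderAt_eq_top] at h
  obtain ⟨l0, hl0⟩ := hne
  have han : AnalyticOnNhd ℂ f univ := fun z _ => hf.analyticAt z
  have := han.eqOn_zero_of_preconnected_of_eventuallyEq_zero isPreconnected_univ (mem_univ l) h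
  exact hl0 (this (mem_univ l0))

lemma exists_entire_quotient {f g : ℂ → ℂ} (hf : Differentiable ℂ f) (hg : Differentiable ℂ g)
    (hne : ∃ l, f l ≠ 0) (hord : ∀ l, analyticOrderAt f l ≤ analyticOrderAt g l) :
    ∃ h : ℂ → ℂ, Differentiable ℂ h ∧ ∀ l, g l = f l * h l := by
  have hfa : ∀ l, AnalyticAt ℂ f l := fun l => hf.analyticAt l
  have hga : ∀ l, AnalyticAt ℂ g l := fun l => hg.analyticAt l
  have hft := analyticOrderAt_ne_top_of_entire hf hne
  have hmer : MeromorphicOn (g / f) univ := fun l _ =>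
    (hga l).meromorphicAt.div (hfa l).meromorphicAt
  set h := toMeromorphicNFOn (g / f) univ with hh
  have hord' : ∀ l, 0 ≤ meromorphicOrderAt (g / f) l := by
    intro l
    rw [meromorphicOrderAt_div (hga l).meromorphicAt (hfa l).meromorphicAt,
      (hga l).meromorphicOrderAt_eq, (hfa l).meromorphicOrderAt_eq]
    have h1 := hord l
    have h2 := hft l
    obtain ⟨m, hm⟩ := ENat.ne_top_iff_exists.mp h2
    rw [← hm] at h1 ⊢
    by_cases hn' : analyticOrderAt g l = ⊤
    · rw [hn', ENat.map_top, ENat.map_natCast]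
      exact le_top
    · obtain ⟨n, hn⟩ := ENat.ne_top_iff_exists.mp hn'
      rw [← hn] at h1 ⊢
      have h3 : m ≤ n := by exact_mod_cast h1
      have : (0 : WithTop ℤ) ≤ ((n : ℤ) : WithTop ℤ) - ((m : ℤ) : WithTop ℤ) := by
        have h4 : (0 : ℤ) ≤ (n : ℤ) - m := by omega
        exact_mod_cast h4
      exact this
  have hana : ∀ l, AnalyticAt ℂ h l := by
    intro l
    have h1 : MeromorphicNFAt h l := meromorphicNFOn_toMeromorphicNFOn (g / f) univ (mem_univ l)
    rw [← h1.meromorphicOrderAt_nonneg_iff_analyticAt, hh,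
      meromorphicOrderAt_toMeromorphicNFOn hmer (mem_univ l)]
    exact hord' l
  refine ⟨h, fun l => (hana l).differentiableAt, fun l => ?_⟩
  have h1 : (g / f) =ᶠ[𝓝[≠] l] h := (hmer.toMeromorphicNFOn_eq_self_on_nhdsNE (mem_univ l)).symm
  have h2 : ∀ᶠ z in 𝓝[≠] l, f z ≠ 0 := by
    rcases (hfa l).eventually_eq_zero_or_eventually_ne_zero with h | h
    · exact absurd (analyticOrderAt_eq_top.mpr h) (hft l)
    · exact h
  have h3 : g =ᶠ[𝓝[≠] l] fun z => f z * h z := by
    filter_upwards [h1, h2] with z hz1 hz2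
    rw [← hz1, Pi.div_apply]
    field_simp
  have h4 : g =ᶠ[𝓝 l] fun z => f z * h z := by
    refine (ContinuousAt.eventuallyEq_nhds_iff_eventuallyEq_nhdsNE ?_ ?_).mp h3
    · exact hg.continuous.continuousAt
    · exact (hf.continuous.continuousAt).mul (hana l).continuousAt
  exact h4.self_of_nhds

end Pool.Agent.HypSemi
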