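import Pool.Agent.HypSemi.Core

open Complex Filter Topology Set MeasureTheory intervalIntegral
open scoped NNReal

namespace Pool.Agent.HypSemi

lemma norm_Wk_le' {v : ℝ → ℂ} {M u : ℝ} (hu : 0 ≤ u) (hM : ∀ r ∈ Icc 0 u, ‖v r‖ ≤ M)
    (k : ℕ) (l : ℂ) :
    ‖Wk v k u l‖ ≤ u ^ k * max 1 (Real.exp (l.re * u)) * M * u := by
  unfold Wk
  have := intervalIntegral.norm_integral_le_of_norm_le_const (a := 0) (b := u)
    (f := fun r : ℝ => ((u - r : ℝ) : ℂ) ^ k * exp (l * ((u - r : ℝ) : ℂ)) * v r)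
    (C := u ^ k * max 1 (Real.exp (l.re * u)) * M) ?_
  · simpa [abs_of_nonneg hu] using this
  · intro r hr
    rw [uIoc_of_le hu] at hr
    rw [norm_mul, norm_mul, Complex.norm_exp, norm_pow, Complex.norm_real]
    have hre : (l * ((u - r : ℝ) : ℂ)).re = l.re * (u - r) := by simp
    rw [hre]
    have h1 : Real.exp (l.re * (u - r)) ≤ max 1 (Real.exp (l.re * u)) := by
      rcases le_total l.re 0 with h | h
      · refine le_max_of_le_left ?_
        rw [Real.exp_le_one_iff]
        exact mul_nonpos_of_nonpos_of_nonneg h (by linarith [hr.2])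
      · refine le_max_of_le_right ?_
        apply Real.exp_le_exp.mpr
        exact mul_le_mul_of_nonneg_left (by linarith [hr.1]) h
    have h2 : ‖(u - r)‖ ^ k ≤ u ^ k := by
      refine pow_le_pow_left₀ (norm_nonneg _) ?_ k
      rw [Real.norm_eq_abs, abs_of_nonneg (by linarith [hr.2])]
      linarith [hr.1]
    exact mul_le_mul (mul_le_mul h2 h1 (Real.exp_pos _).le (by positivity))
      (hM r ⟨hr.1.le, hr.2⟩) (norm_nonneg _) (by positivity)

lemma Wk_add {v v' : ℝ → ℂ} (hv : Continuous v) (hv' : Continuous v') (k : ℕ) (u : ℝ) (l : ℂ) :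
    Wk (fun r => v r + v' r) k u l = Wk v k u l + Wk v' k u l := by
  unfold Wk
  rw [← intervalIntegral.integral_add]
  · congr 1
    funext r
    ring
  · exact (by fun_prop : Continuous _).intervalIntegrable _ _
  · exact (by fun_prop : Continuous _).intervalIntegrable _ _

lemma Wk_smul (v : ℝ → ℂ) (a : ℝ) (k : ℕ) (u : ℝ) (l : ℂ) :
    Wk (fun r => a • v r) k u l = a • Wk v k u l := by
  unfold Wk
  rw [← intervalIntegral.integral_smul]
  congr 1
  funext r
  simp only [real_smul]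
  ring

lemma Wk_congr {v v' : ℝ → ℂ} {u : ℝ} (hu : 0 ≤ u) (h : ∀ r ∈ Icc 0 u, v r = v' r)
    (k : ℕ) (l : ℂ) : Wk v k u l = Wk v' k u l := by
  unfold Wk
  refine intervalIntegral.integral_congr fun r hr => ?_
  rw [uIcc_of_le hu] at hr
  rw [h r hr]

lemma sum_Wk {ι : Type*} (F : Finset ι) (c : ι → ℂ) (v : ι → ℝ → ℂ) (hv : ∀ i, Continuous (v i))
    (k : ℕ) (u : ℝ) (l : ℂ) :
    ∑ s ∈ F, c s * Wk (v s) k u l = Wk (fun r => ∑ s ∈ F, c s * v s r) k u l := by
  unfold Wk
  simp_rw [← intervalIntegral.integral_const_mul]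
  rw [← intervalIntegral.integral_finsetSum]
  · congr 1
    funext r
    rw [Finset.mul_sum]
    refine Finset.sum_congr rfl fun s _ => by ring
  · intro s _
    have := hv s
    exact (by fun_prop : Continuous _).intervalIntegrable _ _

lemma gsum_shift {F : Finset ℝ} {c : ℝ → ℂ} {v : ℝ → ℂ} (hv : Continuous v)
    (hrel : ∀ r, 0 ≤ r → ∑ s ∈ F, c s * v (r + s) = 0) {τ : ℝ} (hτ : 0 ≤ τ) (l : ℂ) :
    gsum F c (fun r => v (r + τ)) 0 l =
      exp (l * τ) * gsum F c v 0 l - expSum F c l * Wk v 0 τ l := by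
  unfold gsum expSum
  have h1 : ∀ s ∈ F, c s * Wk (fun r => v (r + τ)) 0 s l =
      c s * Wk (fun r => v (r + s)) 0 τ l + exp (l * τ) * (c s * Wk v 0 s l)
        - c s * exp (l * s) * Wk v 0 τ l := by
    intro s _
    rw [Wk_shift hv s τ l, Wk_shift hv τ s l, add_comm τ s]
    ring
  rw [Finset.sum_congr rfl h1, Finset.sum_sub_distrib, Finset.sum_add_distrib, ← Finset.mul_sum,
    ← Finset.sum_mul]
  have h2 : ∑ s ∈ F, c s * Wk (fun r => v (r + s)) 0 τ l = 0 := by
    rw [sum_Wk F c (fun s r => v (r + s)) (fun s => by fun_prop)]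
    rw [Wk_congr (v' := fun _ => 0) hτ (fun r hr => hrel r hr.1)]
    simp [Wk]
  rw [h2, zero_add]

section

variable {X : Type*} [NormedAddCommGroup X] [NormedSpace ℝ X]

/-- orbit functional -/
noncomputable def orb (S : ℝ≥0 → X →L[ℝ] X) (φ : X →L[ℝ] ℂ) (x : X) (t : ℝ) : ℂ :=
  φ (S t.toNNReal x)

variable {S : ℝ≥0 → X →L[ℝ] X}

lemma continuous_orb (hcont : ∀ x, Continuous fun t => S t x) (φ : X →L[ℝ] ℂ) (x : X) :
    Continuous (orb S φ x) := by
  unfold orb
  exact φ.continuous.comp ((hcont x).comp continuous_real_toNNReal)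

lemma eigen_zero {z : X} (hz : Dense (range fun t => S t z)) {Φ : X →L[ℝ] ℂ} {μ : ℂ}
    (h : ∀ τ : ℝ≥0, Φ (S τ z) = exp (μ * τ) * Φ z) : Φ = 0 := by
  by_contra hne
  have hΦz : Φ z ≠ 0 := by
    intro h0
    apply hne
    ext x
    have hcl : IsClosed {x | Φ x = 0} := isClosed_eq Φ.continuous continuous_const
    have hsub : range (fun t => S t z) ⊆ {x | Φ x = 0} := by
      rintro _ ⟨t, rfl⟩
      show Φ (S t z) = 0
      rw [h t, h0, mul_zero]
    have := hcl.closure_subset_iff.mpr hsub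
    rw [hz.closure_eq] at this
    exact this (mem_univ x)
  have hnorm : ∀ τ : ℝ≥0, ‖Φ (S τ z)‖ = Real.exp (μ.re * τ) * ‖Φ z‖ := by
    intro τ
    rw [h τ, norm_mul, Complex.norm_exp]
    congr 2
    simp
  have hpos : 0 < ‖Φ z‖ := norm_pos_iff.mpr hΦz
  rcases le_total μ.re 0 with hμ | hμ
  · have hcl : IsClosed {x | ‖Φ x‖ ≤ ‖Φ z‖} := isClosed_le Φ.continuous.norm continuous_const
    have hsub : range (fun t => S t z) ⊆ {x | ‖Φ x‖ ≤ ‖Φ z‖} := by
      rintro _ ⟨t, rfl⟩
      show ‖Φ (S t z)‖ ≤ ‖Φ z‖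
      rw [hnorm t]
      refine mul_le_of_le_one_left hpos.le ?_
      rw [Real.exp_le_one_iff]
      exact mul_nonpos_of_nonpos_of_nonneg hμ t.coe_nonneg
    have := hcl.closure_subset_iff.mpr hsub
    rw [hz.closure_eq] at this
    have h2 : ‖Φ ((2:ℝ) • z)‖ ≤ ‖Φ z‖ := this (mem_univ _)
    rw [map_smul, norm_smul] at h2
    simp at h2
    linarith
  · have hcl : IsClosed {x | ‖Φ z‖ ≤ ‖Φ x‖} := isClosed_le continuous_const Φ.continuous.norm
    have hsub : range (fun t => S t z) ⊆ {x | ‖Φ z‖ ≤ ‖Φ x‖} := by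
      rintro _ ⟨t, rfl⟩
      show ‖Φ z‖ ≤ ‖Φ (S t z)‖
      rw [hnorm t]
      refine le_mul_of_one_le_left hpos.le ?_
      rw [Real.one_le_exp_iff]
      exact mul_nonneg hμ t.coe_nonneg
    have := hcl.closure_subset_iff.mpr hsub
    rw [hz.closure_eq] at this
    have h2 : ‖Φ z‖ ≤ ‖Φ 0‖ := this (mem_univ _)
    rw [map_zero, norm_zero] at h2
    linarith

lemma exists_bound [CompleteSpace X] (hcont : ∀ x, Continuous fun t => S t x) (L : ℝ) :
    ∃ M, 0 ≤ M ∧ ∀ t ∈ Icc 0 L, ‖S t.toNNReal‖ ≤ M := by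
  have hb : ∀ x, ∃ C, ∀ t : Icc (0:ℝ) L, ‖S (t : ℝ).toNNReal x‖ ≤ C := by
    intro x
    have hc : Continuous fun t : ℝ => S t.toNNReal x := (hcont x).comp continuous_real_toNNReal
    obtain ⟨C, hC⟩ := (isCompact_Icc (a := (0:ℝ)) (b := L)).exists_bound_of_continuousOn
      hc.continuousOn
    exact ⟨C, fun t => hC t t.2⟩
  obtain ⟨C, hC⟩ := banach_steinhaus (g := fun t : Icc (0:ℝ) L => S (t : ℝ).toNNReal) hb
  exact ⟨max C 0, le_max_right _ _, fun t ht => (hC ⟨t, ht⟩).trans (le_max_left _ _)⟩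

/-- `x ↦ gsum F c (orb S φ x) k l` as a continuous linear map. -/
lemma exists_clm [CompleteSpace X] (hcont : ∀ x, Continuous fun t => S t x) (φ : X →L[ℝ] ℂ)
    {F : Finset ℝ} (hF : ∀ s ∈ F, 0 ≤ s) (c : ℝ → ℂ) (k : ℕ) (l : ℂ) :
    ∃ Φ : X →L[ℝ] ℂ, ∀ x, Φ x = gsum F c (orb S φ x) k l := by
  have hone : ∀ s ∈ F, ∃ Φ : X →L[ℝ] ℂ, ∀ x, Φ x = Wk (orb S φ x) k s l := by
    intro s hs
    obtain ⟨M, hM0, hM⟩ := exists_bound (S := S) hcont s
    refine ⟨LinearMap.mkContinuous
      { toFun := fun x => Wk (orb S φ x) k s l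
        map_add' := fun x y => ?_
        map_smul' := fun a x => ?_ } (s ^ k * max 1 (Real.exp (l.re * s)) * (‖φ‖ * M) * s) ?_,
      fun x => rfl⟩
    · have h1 : orb S φ (x + y) = fun r => orb S φ x r + orb S φ y r := by
        funext r; simp [orb]
      rw [h1, Wk_add (continuous_orb hcont φ x) (continuous_orb hcont φ y)]
    · have h1 : orb S φ (a • x) = fun r => a • orb S φ x r := by
        funext r; simp [orb]
      rw [h1, Wk_smul, RingHom.id_apply]
    · intro x
      have h2 : ∀ r ∈ Icc 0 s, ‖orb S φ x r‖ ≤ ‖φ‖ * M * ‖x‖ := by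
        intro r hr
        unfold orb
        calc ‖φ (S r.toNNReal x)‖ ≤ ‖φ‖ * ‖S r.toNNReal x‖ := φ.le_opNorm _
          _ ≤ ‖φ‖ * (‖S r.toNNReal‖ * ‖x‖) :=
              mul_le_mul_of_nonneg_left ((S r.toNNReal).le_opNorm x) (norm_nonneg _)
          _ ≤ ‖φ‖ * (M * ‖x‖) := by
              refine mul_le_mul_of_nonneg_left ?_ (norm_nonneg _)
              exact mul_le_mul_of_nonneg_right (hM r hr) (norm_nonneg _)
          _ = ‖φ‖ * M * ‖x‖ := by ring
      refine (norm_Wk_le' (hF s hs) h2 k l).trans (le_of_eq ?_)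
      ring
  choose! Ψ hΨ using hone
  refine ⟨∑ s ∈ F, (ContinuousLinearMap.mul ℝ ℂ (c s)).comp (Ψ s), fun x => ?_⟩
  unfold gsum
  rw [sum_apply]
  refine Finset.sum_congr rfl fun s hs => ?_
  simp [hΨ s hs]

lemma iteratedDeriv_gsum (F : Finset ℝ) (c : ℝ → ℂ) {v : ℝ → ℂ} (hv : Continuous v) (k : ℕ) :
    iteratedDeriv k (gsum F c v 0) = gsum F c v k := by
  induction k with
  | zero => simp
  | succ k ih =>
    rw [iteratedDeriv_succ, ih]
    funext l
    unfold gsum
    have : HasDerivAt (fun l => ∑ s ∈ F, c s * Wk v k s l) (∑ s ∈ F, c s * Wk v (k+1) s l) l :=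
      HasDerivAt.fun_sum fun s _ => (hasDerivAt_Wk hv k s l).const_mul (c s)
    exact this.deriv

lemma orb_shift (hadd : ∀ s t x, S (s + t) x = S s (S t x)) (φ : X →L[ℝ] ℂ) (x : X)
    (τ : ℝ≥0) {r : ℝ} (hr : 0 ≤ r) : orb S φ (S τ x) r = orb S φ x (r + τ) := by
  unfold orb
  rw [← hadd, Real.toNNReal_add hr τ.coe_nonneg, Real.toNNReal_coe]

lemma order_le [CompleteSpace X] (hadd : ∀ s t x, S (s + t) x = S s (S t x))
    (hcont : ∀ x, Continuous fun t => S t x) {z : X} (hz : Dense (range fun t => S t z))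
    (φ : X →L[ℝ] ℂ) {F : Finset ℝ} (hF : ∀ s ∈ F, 0 ≤ s) (h0 : (0:ℝ) ∈ F) {c : ℝ → ℂ}
    (hc0 : c 0 ≠ 0)
    (hrel : ∀ x, ∀ r, 0 ≤ r → ∑ s ∈ F, c s * orb S φ x (r + s) = 0) (l : ℂ) (x : X) :
    analyticOrderAt (expSum F c) l ≤ analyticOrderAt (gsum F c (orb S φ x) 0) l := by
  have hfd := differentiable_expSum F c
  have hgd : ∀ x, Differentiable ℂ (gsum F c (orb S φ x) 0) := fun x =>
    differentiable_gsum F c (continuous_orb hcont φ x) 0
  have key : ∀ k : ℕ, (k : ℕ∞) ≤ analyticOrderAt (expSum F c) l →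
      ∀ x, (k : ℕ∞) ≤ analyticOrderAt (gsum F c (orb S φ x) 0) l := by
    intro k
    induction k with
    | zero => intro _ x; simp
    | succ k ih =>
      intro hk
      have hk' : (k : ℕ∞) ≤ analyticOrderAt (expSum F c) l :=
        le_trans (by exact_mod_cast Nat.le_succ k) hk
      have ihx := ih hk'
      obtain ⟨Φ, hΦ⟩ := exists_clm (S := S) hcont φ hF c k l
      have hΦ0 : Φ = 0 := by
        refine eigen_zero (S := S) (z := z) (μ := l) hz fun τ => ?_
        have hrelD : ∀ w : ℂ, gsum F c (orb S φ (S τ z)) 0 w =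
            exp (w * τ) * gsum F c (orb S φ z) 0 w
              - expSum F c w * Wk (orb S φ z) 0 τ w := by
          intro w
          have h1 := gsum_shift (F := F) (c := c) (continuous_orb hcont φ z) (hrel z) τ.coe_nonneg w
          rw [← h1]
          unfold gsum
          refine Finset.sum_congr rfl fun s hs => ?_
          congr 1
          exact Wk_congr (hF s hs) (fun r hr => orb_shift hadd φ z τ hr.1) 0 w
        -- D has order ≥ k+1
        have hD : ((k + 1 : ℕ) : ℕ∞) ≤ analyticOrderAt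
            (fun w => (exp (w * τ) - exp (l * τ)) * gsum F c (orb S φ z) 0 w
              - expSum F c w * Wk (orb S φ z) 0 τ w) l := by
          have he : Differentiable ℂ (fun w : ℂ => exp (w * τ) - exp (l * τ)) := by fun_prop
          have hW := differentiable_Wk (continuous_orb (S := S) hcont φ z) 0 τ
          have h1 : ((k + 1 : ℕ) : ℕ∞) ≤ analyticOrderAt
              ((fun w : ℂ => exp (w * τ) - exp (l * τ)) * gsum F c (orb S φ z) 0) l := by
            rw [analyticOrderAt_mul (he.analyticAt l) ((hgd z).analyticAt l)]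
            have : (1 : ℕ∞) ≤ analyticOrderAt (fun w : ℂ => exp (w * τ) - exp (l * τ)) l := by
              rw [Order.one_le_iff_ne_zero, Ne, (he.analyticAt l).analyticOrderAt_eq_zero]
              simp
            push_cast
            rw [add_comm]
            exact add_le_add this (ihx z)
          have h2 : ((k + 1 : ℕ) : ℕ∞) ≤ analyticOrderAt (expSum F c * Wk (orb S φ z) 0 τ) l := by
            rw [analyticOrderAt_mul (hfd.analyticAt l) (hW.analyticAt l)]
            exact le_add_right hk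
          have h3 := le_analyticOrderAt_sub (f := (fun w : ℂ => exp (w * τ) - exp (l * τ)) *
            gsum F c (orb S φ z) 0) (g := expSum F c * Wk (orb S φ z) 0 τ) (z₀ := l)
          exact (le_min h1 h2).trans h3
        have hDeq : (fun w => (exp (w * τ) - exp (l * τ)) * gsum F c (orb S φ z) 0 w
              - expSum F c w * Wk (orb S φ z) 0 τ w) =
            fun w => gsum F c (orb S φ (S τ z)) 0 w - exp (l * τ) * gsum F c (orb S φ z) 0 w := by
          funext w
          rw [hrelD w]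
          ring
        rw [hDeq] at hD
        have hDan : AnalyticAt ℂ (fun w => gsum F c (orb S φ (S τ z)) 0 w -
            exp (l * τ) * gsum F c (orb S φ z) 0 w) l := by
          have := hgd (S τ z)
          have := hgd z
          exact Differentiable.analyticAt (by fun_prop) l
        rw [natCast_le_analyticOrderAt_iff_iteratedDeriv_eq_zero hDan] at hD
        have h4 := hD k (Nat.lt_succ_self k)
        have hc1 : ContDiffAt ℂ k (gsum F c (orb S φ (S τ z)) 0) l :=
          ((hgd (S τ z)).contDiff).contDiffAt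
        have hc2 : ContDiffAt ℂ k (fun w => exp (l * τ) * gsum F c (orb S φ z) 0 w) l :=
          (contDiff_const.mul (hgd z).contDiff).contDiffAt
        rw [iteratedDeriv_fun_sub hc1 hc2, iteratedDeriv_const_mul_field,
          iteratedDeriv_gsum F c (continuous_orb hcont φ _),
          iteratedDeriv_gsum F c (continuous_orb hcont φ _), sub_eq_zero] at h4
        rw [hΦ, hΦ]
        exact h4
      intro x
      rw [natCast_le_analyticOrderAt_iff_iteratedDeriv_eq_zero ((hgd x).analyticAt l)]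
      intro i hi
      rcases Nat.lt_succ_iff_lt_or_eq.mp hi with h | h
      · exact (natCast_le_analyticOrderAt_iff_iteratedDeriv_eq_zero ((hgd x).analyticAt l)).mp
          (ihx x) i h
      · rw [h, iteratedDeriv_gsum F c (continuous_orb hcont φ x), ← hΦ x, hΦ0]
        rfl
  have hft := analyticOrderAt_ne_top_of_entire hfd (exists_expSum_ne_zero hF h0 hc0) l
  obtain ⟨m, hm⟩ := ENat.ne_top_iff_exists.mp hft
  rw [← hm]
  exact key m hm.le x

/-- **Core theorem**: functionals satisfying an exponential-sum relation vanish. -/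
theorem core [CompleteSpace X] (hzero : ∀ x, S 0 x = x)
    (hadd : ∀ s t x, S (s + t) x = S s (S t x))
    (hcont : ∀ x, Continuous fun t => S t x) {z : X} (hz : Dense (range fun t => S t z))
    (φ : X →L[ℝ] ℂ) {F : Finset ℝ} (hF : ∀ s ∈ F, 0 ≤ s) (h0 : (0:ℝ) ∈ F) {c : ℝ → ℂ}
    (hc : ∀ s ∈ F, c s ≠ 0)
    (hrel : ∀ x, ∀ r, 0 ≤ r → ∑ s ∈ F, c s * orb S φ x (r + s) = 0) : φ = 0 := by
  have hg0 : ∀ x l, gsum F c (orb S φ x) 0 l = 0 := fun x l =>
    gsum_eq_zero hF h0 hc (continuous_orb hcont φ x)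
      (fun l => order_le hadd hcont hz φ hF h0 (hc 0 h0) hrel l x) l
  obtain ⟨l, hl⟩ := exists_expSum_ne_zero hF h0 (hc 0 h0)
  ext x
  have hv := continuous_orb (S := S) hcont φ x
  have hW : ∀ τ : ℝ, 0 ≤ τ → Wk (orb S φ x) 0 τ l = 0 := by
    intro τ hτ
    have h1 := gsum_shift (F := F) (c := c) hv (hrel x) hτ l
    have h2 : gsum F c (fun r => orb S φ x (r + τ)) 0 l = 0 := by
      have h3 := hg0 (S τ.toNNReal x) l
      rw [← h3]
      unfold gsum
      refine Finset.sum_congr rfl fun s hs => ?_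
      congr 1
      refine Wk_congr (hF s hs) (fun r hr => ?_) 0 l
      rw [orb_shift hadd φ x τ.toNNReal hr.1, Real.coe_toNNReal τ hτ]
    rw [h2, hg0 x l, mul_zero, zero_sub, eq_comm, neg_eq_zero] at h1
    exact (mul_eq_zero.mp h1).resolve_left hl
  -- multiply by e^{-lτ} to get the integral of e^{-l r} v(r)
  have hI : ∀ τ : ℝ, 0 ≤ τ → ∫ r in (0:ℝ)..τ, exp (-l * r) * orb S φ x r = 0 := by
    intro τ hτ
    have h1 := hW τ hτ
    unfold Wk at h1
    have h2 : (∫ r in (0:ℝ)..τ, ((τ - r : ℝ) : ℂ) ^ 0 * exp (l * ((τ - r : ℝ) : ℂ)) * orb S φ x r) =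
        exp (l * τ) * ∫ r in (0:ℝ)..τ, exp (-l * r) * orb S φ x r := by
      rw [← intervalIntegral.integral_const_mul]
      congr 1
      funext r
      rw [pow_zero, one_mul, ← mul_assoc, ← exp_add]
      congr 2
      push_cast
      ring
    rw [h2] at h1
    exact (mul_eq_zero.mp h1).resolve_left (exp_ne_zero _)
  have hcont' : Continuous fun r : ℝ => exp (-l * r) * orb S φ x r := by fun_prop
  have hpos : ∀ τ : ℝ, 0 < τ → orb S φ x τ = 0 := by
    intro τ hτ
    have hd : HasDerivAt (fun u => ∫ r in (0:ℝ)..u, exp (-l * r) * orb S φ x r)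
        (exp (-l * τ) * orb S φ x τ) τ :=
      intervalIntegral.integral_hasDerivAt_right (hcont'.intervalIntegrable _ _)
        (hcont'.stronglyMeasurableAtFilter _ _) hcont'.continuousAt
    have hd0 : HasDerivAt (fun u => ∫ r in (0:ℝ)..u, exp (-l * r) * orb S φ x r) 0 τ := by
      refine (hasDerivAt_const τ (0:ℂ)).congr_of_eventuallyEq ?_
      filter_upwards [lt_mem_nhds hτ] with u hu
      exact hI u hu.le
    have := hd.unique hd0
    exact (mul_eq_zero.mp this).resolve_left (exp_ne_zero _)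
  have h0' : orb S φ x 0 = 0 := by
    have hcl : Tendsto (orb S φ x) (𝓝[>] 0) (𝓝 (orb S φ x 0)) :=
      (hv.tendsto 0).mono_left nhdsWithin_le_nhds
    have hcl2 : Tendsto (orb S φ x) (𝓝[>] 0) (𝓝 0) := by
      refine tendsto_const_nhds.congr' ?_
      filter_upwards [self_mem_nhdsWithin] with u hu
      exact (hpos u hu).symm
    exact tendsto_nhds_unique hcl hcl2
  simpa [orb, hzero] using h0'

end

end Pool.Agent.HypSemi
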